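import Pool.Agent.J4H69.HP.K9

/-!
# Project HP, K7: residues as limits of Riemann sums
-/

open Polynomial Matrix Filter Topology Finset

namespace Pool.Agent.J4H69.HP

open Pool.Agent.J4H98.HP
open Pool.Agent.TH828.DM (Omega OmegaN IsRigidAnalytic expA res HasRes pt avg Reg Circ RegOK Good good_of_approx
  card_cast two_le_card pt_sub norm_algebraMap norm_algebraMap_le norm_aeval aeval_mem_Kinf exists_poly_near
  exists_pt pt_eq_aeval pt_succ pt_zero norm_pt_le one_le_norm_pt norm_s norm_t_eq norm_t_pow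
  norm_sub_of_gt norm_sub_of_lt norm_add_of_lt norm_add_of_gt norm_add_le_of norm_sub_le_of inner_mem_omega
  omegaN_sub)
open Pool.Agent.N814.DR (slash SmallAtInfinity slash_of_mem jf mob aeval_ne_zero)

/-! ### the embedding -/

section
variable {Fq : Type} [Field Fq] {C : Type} [NontriviallyNormedField C]
  [Algebra Fq C] {t s : C} {ι : Kinf Fq →+* C}

lemma io_C (h : Sta t s ι) (c : Fq) : ι (HahnSeries.C c) = algebraMap Fq C c := by
  have h1 := h.emb (Polynomial.C c)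
  have h2 : emb Fq (Polynomial.C c) = HahnSeries.C c := by
    unfold emb
    simp
  rw [h2] at h1
  simpa using h1

lemma emb_X_pow (n : ℕ) : emb Fq (X ^ n) = HahnSeries.single (-(n : ℤ)) (1 : Fq) := by
  have h2 : emb Fq X = HahnSeries.single (-1 : ℤ) (1 : Fq) := by
    unfold emb
    simp
  rw [map_pow, h2, HahnSeries.single_pow]
  simp

lemma io_single (h : Sta t s ι) (n : ℕ) (c : Fq) :
    ι (HahnSeries.single (n : ℤ) c) = algebraMap Fq C c * (t ^ n)⁻¹ := by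
  have ht0 : t ≠ 0 := norm_pos_iff.1 (by linarith [h.ht])
  have h1 : ι (HahnSeries.single (-(n : ℤ)) (1 : Fq)) = t ^ n := by
    rw [← emb_X_pow, h.emb]
    simp
  have h2 : (HahnSeries.single (n : ℤ) c : Kinf Fq) * HahnSeries.single (-(n : ℤ)) (1 : Fq) = HahnSeries.C c := by
    rw [HahnSeries.single_mul_single]
    simp
  have h3 := congrArg ι h2
  rw [map_mul, h1, io_C h] at h3
  rw [← h3]
  field_simp

lemma io_uu (h : Sta t s ι) {k : ℕ} (w : Fin k → Fq) :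
    ι (uu w) = (t ^ k)⁻¹ * pt t (fun i => w (Fin.rev i)) := by
  have ht0 : t ≠ 0 := norm_pos_iff.1 (by linarith [h.ht])
  unfold uu pt
  rw [map_sum, Finset.mul_sum]
  rw [← Equiv.sum_comp (Fin.revPerm (n := k))
    (fun i : Fin k => ι (HahnSeries.single (((i : ℕ) : ℤ) + 1) (w i)))]
  apply Finset.sum_congr rfl
  intro i _
  rw [Fin.revPerm_apply]
  have h1 := io_single h ((Fin.rev i : ℕ) + 1) (w (Fin.rev i))
  rw [Nat.cast_add, Nat.cast_one] at h1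
  rw [h1]
  have h2 : (Fin.rev i : ℕ) + 1 + (i : ℕ) = k := by
    rw [Fin.val_rev]
    omega
  have h3 : t ^ k = t ^ ((Fin.rev i : ℕ) + 1) * t ^ (i : ℕ) := by rw [← pow_add, h2]
  rw [h3]
  field_simp

lemma rad_eq (h : Sta t s ι) (k : ℕ) : t ^ (-((k : ℤ) + 1)) * s = (t ^ k)⁻¹ * s⁻¹ := by
  have ht0 : t ≠ 0 := norm_pos_iff.1 (by linarith [h.ht])
  have hs0 : s ≠ 0 := by
    rintro rfl
    apply ht0
    rw [← h.hs]; simp
  rw [_root_.zpow_neg, zpow_add₀ ht0, _root_.zpow_natCast, _root_.zpow_one, ← h.hs]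
  field_simp

end

section
variable {F : Type*} [Field F] [Fintype F] {C : Type*} [NontriviallyNormedField C] [IsUltrametricDist C]
  [Algebra F C] [CompleteSpace C] [IsAlgClosed C] {t s : C}

/-- residue theorem for `f h`, `h` approximable on the disc -/
lemma good_mul' {f h : C → C} (hf : IsRigidAnalytic F t f) {ι : Type*} [Fintype ι] {p : ι → C}
    {s₀ s₁ : C} (hh : ∀ ε : ℝ, 0 < ε → ∃ P : C[X], ∀ z : C, ‖z‖ ≤ ‖s₀‖ → ‖h z - P.eval z‖ ≤ ε)
    (H : RegOK p s₀ s₁) {N : ℕ} (hN : ∀ z ∈ Reg p s₀ s₁, z ∈ OmegaN F t N) :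
    Good (Fintype.card F) p s₀ s₁ (fun z => f z * h z) := by
  have hf1 : Good (Fintype.card F) p s₀ s₁ f := by
    apply good_of_approx (card_cast F C) two_le_card H
    intro ε hε
    obtain ⟨P, Q, hQ, hPQ⟩ := hf N ε hε
    exact ⟨P, Q, fun z hz => hQ z (hN z hz), fun z hz => hPQ z (hN z (H.circ_sub hz))⟩
  obtain ⟨⟨M, hM0, hM⟩, _⟩ := hf1
  apply good_of_approx (card_cast F C) two_le_card H
  intro ε hε
  obtain ⟨P', hP'⟩ := hh (ε / (2 * (M + 1))) (by positivity)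
  obtain ⟨M', hM0', hM'⟩ := norm_eval_bdd P' ‖s₀‖
  obtain ⟨P, Q, hQ, hPQ⟩ := hf N (ε / (2 * (M' + 1))) (by positivity)
  refine ⟨P * P', Q, fun z hz => hQ z (hN z hz), fun z hz => ?_⟩
  have hzR := H.circ_sub hz
  have e : f z * h z - (P * P').eval z / Q.eval z =
      f z * (h z - P'.eval z) + (f z - P.eval z / Q.eval z) * P'.eval z := by
    rw [Polynomial.eval_mul]; ring
  rw [e]
  have h1 : ‖f z * (h z - P'.eval z)‖ ≤ ε / 2 := by
    rw [norm_mul]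
    calc ‖f z‖ * ‖h z - P'.eval z‖ ≤ (M + 1) * (ε / (2 * (M + 1))) :=
          mul_le_mul ((hM z hz).trans (by linarith)) (hP' z hzR.1) (norm_nonneg _) (by positivity)
      _ = ε / 2 := by field_simp
  have h2 : ‖(f z - P.eval z / Q.eval z) * P'.eval z‖ ≤ ε / 2 := by
    rw [norm_mul]
    calc ‖f z - P.eval z / Q.eval z‖ * ‖P'.eval z‖ ≤ (ε / (2 * (M' + 1))) * (M' + 1) :=
          mul_le_mul (hPQ z (hN z hzR)) ((hM' z hzR.1).trans (by linarith)) (norm_nonneg _) (by positivity)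
      _ = ε / 2 := by field_simp
  calc _ ≤ ‖f z * (h z - P'.eval z)‖ + ‖(f z - P.eval z / Q.eval z) * P'.eval z‖ := norm_add_le _ _
    _ ≤ ε / 2 + ε / 2 := add_le_add h1 h2
    _ = ε := by ring

lemma dist_A (hs : s ^ 2 = t) (ht : 1 < ‖t‖) {m : ℕ} {G : C} (hG : ‖G‖ = ‖t‖ ^ m)
    (hGK : G ∈ Pool.Agent.TH828.DM.Kinf F t) {z : C}
    (hz : z ∈ Reg (fun b : Fin m → F => G⁻¹ * pt t b) s⁻¹ (G⁻¹ * s⁻¹)) {x : C}
    (hx : x ∈ Pool.Agent.TH828.DM.Kinf F t) : ‖G⁻¹ * s⁻¹‖ ≤ ‖z - x‖ := by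
  have hG0 : G ≠ 0 := norm_pos_iff.1 (by rw [hG]; positivity)
  obtain ⟨h1, h2⟩ := hz
  have hB : G * z ∈ Reg (fun b : Fin m → F => pt t b) (G * s⁻¹) s⁻¹ := by
    refine ⟨?_, fun b => ?_⟩
    · rw [norm_mul, norm_mul]
      exact mul_le_mul_of_nonneg_left h1 (norm_nonneg _)
    · have h3 : ‖G⁻¹ * s⁻¹‖ ≤ ‖z - G⁻¹ * pt t b‖ := h2 b
      have e : G * z - pt t b = G * (z - G⁻¹ * pt t b) := by
        rw [mul_sub, mul_inv_cancel_left₀ hG0]
      change ‖s⁻¹‖ ≤ ‖G * z - pt t b‖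
      rw [e, norm_mul]
      rw [norm_mul, norm_inv G] at h3
      calc ‖s⁻¹‖ = ‖G‖ * (‖G‖⁻¹ * ‖s⁻¹‖) := by
            have : ‖G‖ ≠ 0 := norm_ne_zero_iff.2 hG0
            field_simp
        _ ≤ _ := mul_le_mul_of_nonneg_left h3 (norm_nonneg _)
  have h3 := dist_B hs ht hG hB (mul_mem hGK hx)
  rw [← mul_sub, norm_mul] at h3
  rw [norm_mul, norm_inv G]
  calc ‖G‖⁻¹ * ‖s⁻¹‖ ≤ ‖G‖⁻¹ * (‖G‖ * ‖z - x‖) := mul_le_mul_of_nonneg_left h3 (by positivity)
    _ = ‖z - x‖ := by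
      have : ‖G‖ ≠ 0 := norm_ne_zero_iff.2 hG0
      field_simp

end

lemma slash_one_mem {Fq C : Type} [Field Fq] [Fintype Fq] [NontriviallyNormedField C]
    [IsUltrametricDist C] [Algebra Fq C] {t : C} {f : C → C} {z : C} (hz : z ∈ Omega Fq t) :
    slash Fq t 2 1 1 f z = f z := by
  rw [slash_of_mem _ _ hz]
  simp [jf, mob]

/-- K7, from K3b -/
theorem t_RIEM (hE : S_EDGE) : S_RIEM := by
  intro Fq C _ _ _ _ _ _ _ t s ι hst f hf hGB h hL hP
  classical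
  have ht := hst.ht
  have hs := hst.hs
  have hs1 := norm_s hs ht
  obtain ⟨B, hB⟩ := hGB
  obtain ⟨L, hL⟩ := hL
  -- the regions
  have hG : ∀ k : ℕ, ‖t ^ k‖ = ‖t‖ ^ k := fun k => norm_pow t k
  have hGK : ∀ k : ℕ, t ^ k ∈ Pool.Agent.TH828.DM.Kinf Fq t := fun k => by
    have := aeval_mem_Kinf (F := Fq) t (X ^ k)
    simpa using this
  have key : ∀ k : ℕ, ∃ v : C, HasRes (Fintype.card Fq) (fun z => f z * h z) 0 s⁻¹ v ∧
      ‖(∑ w : Fin k → Fq, h (ι (uu w)) * rc t s ι f (edge 1 (k + 1) (uu w))) - v‖ ≤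
        ‖(t ^ k)⁻¹ * s⁻¹‖ * (|B| * |L|) := by
    intro k
    have H := regOK_A (F := Fq) hs ht (hG k)
    obtain ⟨_, v0, v, h1, h2, h3⟩ := good_mul' hf hP H (N := k + 1)
      (fun z hz => reg_A_sub hs ht (hG k) (hGK k) hz)
    refine ⟨v0, h1, ?_⟩
    set σ : (Fin k → Fq) ≃ (Fin k → Fq) := Fin.revPerm.arrowCongr (Equiv.refl Fq) with hσ
    have hσw : ∀ w : Fin k → Fq, σ w = fun i => w (Fin.rev i) := fun w => by
      funext i
      simp [hσ]
    rw [h3, ← Equiv.sum_comp σ v, ← Finset.sum_sub_distrib]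
    apply IsUltrametricDist.norm_sum_le_of_forall_le_of_nonneg (by positivity)
    intro w _
    have hu : ι (uu w) = (t ^ k)⁻¹ * pt t (σ w) := by rw [io_uu hst, hσw]
    have hr1 : HasRes (Fintype.card Fq) f ((t ^ k)⁻¹ * pt t (σ w)) ((t ^ k)⁻¹ * s⁻¹)
        (rc t s ι f (edge 1 (k + 1) (uu w))) := by
      have h4 := hE Fq C t s ι hst f hf 1 (by simp) ((k : ℤ) + 1) (uu w)
      rw [rad_eq hst, hu] at h4
      refine h4.congr two_le_card fun z hz => ?_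
      exact slash_one_mem (omegaN_sub ht (reg_A_sub hs ht (hG k) (hGK k) (H.inner hz)))
    have hr2 : HasRes (Fintype.card Fq) (fun z => f z * h z) ((t ^ k)⁻¹ * pt t (σ w)) ((t ^ k)⁻¹ * s⁻¹)
        (v (σ w)) := h2 (σ w)
    rw [hu]
    refine HasRes.dist_le (card_cast Fq C) two_le_card (by positivity) (fun z hz => ?_)
      (hr1.const_mul (h ((t ^ k)⁻¹ * pt t (σ w)))) hr2
    have hzR := H.inner hz
    have hzO := omegaN_sub ht (reg_A_sub hs ht (hG k) (hGK k) hzR)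
    have h5 := hB z hzO ‖(t ^ k)⁻¹ * s⁻¹‖ (norm_nonneg _)
      (fun x hx => dist_A hs ht (hG k) (hGK k) hzR hx)
    have h6 := hL z ((t ^ k)⁻¹ * pt t (σ w)) hzR.1 (H.hp (σ w)).le
    rw [hz] at h6
    have e : h ((t ^ k)⁻¹ * pt t (σ w)) * f z - f z * h z =
        -(f z * (h z - h ((t ^ k)⁻¹ * pt t (σ w)))) := by ring
    rw [e, norm_neg, norm_mul]
    calc ‖f z‖ * ‖h z - h ((t ^ k)⁻¹ * pt t (σ w))‖ ≤ ‖f z‖ * (|L| * ‖(t ^ k)⁻¹ * s⁻¹‖) := by
          apply mul_le_mul_of_nonneg_left _ (norm_nonneg _)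
          exact h6.trans (mul_le_mul_of_nonneg_right (le_abs_self L) (norm_nonneg _))
      _ = (‖f z‖ * ‖(t ^ k)⁻¹ * s⁻¹‖) * |L| := by ring
      _ ≤ |B| * |L| := mul_le_mul_of_nonneg_right (h5.trans (le_abs_self B)) (abs_nonneg _)
  obtain ⟨v, hv, -⟩ := key 0
  refine ⟨v, hv, ?_⟩
  rw [tendsto_iff_norm_sub_tendsto_zero]
  have hlim : Tendsto (fun k : ℕ => ‖(t ^ k)⁻¹ * s⁻¹‖ * (|B| * |L|)) atTop (𝓝 0) := by
    have h1 : Tendsto (fun k : ℕ => (‖t‖⁻¹) ^ k) atTop (𝓝 0) :=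
      tendsto_pow_atTop_nhds_zero_of_lt_one (by positivity) (inv_lt_one_of_one_lt₀ ht)
    have h2 := (h1.mul_const ‖s⁻¹‖).mul_const (|B| * |L|)
    rw [zero_mul, zero_mul] at h2
    refine h2.congr fun k => ?_
    rw [norm_mul, norm_inv (t ^ k), norm_pow, inv_pow]
  refine squeeze_zero (fun k => norm_nonneg _) (fun k => ?_) hlim
  obtain ⟨v', hv', hk⟩ := key k
  rw [hv.unique hv']
  exact hk

end Pool.Agent.J4H69.HP
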