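import Pool.Agent.J4H98.HP.Jobs2
import Pool.Agent.J4H8.HP.Core1a

/-!
# Project HP, K11: one cusp condition implies the other in characteristic `p`
-/

open Polynomial Matrix

namespace Pool.Agent.J4H69.HP

open Pool.Agent.J4H98.HP
open Pool.Agent.J4H8.HP

section
variable {Fq : Type} [Field Fq] [Fintype Fq] {n : Fq[X]} {N : Type} [AddCommGroup N]
  {Φ : Matrix (Fin 2) (Fin 2) Fq[X] → ℤ → Kinf Fq → N}

lemma zero5' (hn : n.Monic) (h4 : n.natDegree = 4) (h0 : Fam0 n Φ)
    (hp : ∀ x : N, (Fintype.card Fq) • x = 0) : Φ 1 5 0 = 0 := by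
  rw [rev h0, neg_eq_zero]
  have e : (1 : ℤ) - 5 = -4 := by norm_num
  rw [e, h0.sum _ det_w]
  have key : ∀ c : Fq, Φ !![0, 1; 1, 0] (-4 + 1) (0 + HahnSeries.single (-4 : ℤ) c) =
      Φ !![0, 1; 1, 0] (-3) 0 := by
    intro c
    have e2 : (-4 : ℤ) + 1 = -3 := by norm_num
    have e3 : (HahnSeries.single (-4 : ℤ) c : Kinf Fq) =
        emb Fq (Polynomial.C c * (X ^ 4 - n)) + emb Fq (n * Polynomial.C c) := by
      rw [← map_add]
      have : Polynomial.C c * (X ^ 4 - n) + n * Polynomial.C c = Polynomial.C c * X ^ 4 := by ring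
      rw [this, emb_CX]
      norm_num
    rw [e2, zero_add, e3, per0 h0]
    rw [h0.congr _ det_w (-3) _ 0]
    rw [sub_zero]
    refine val_emb (d := 3) ?_
    rw [Polynomial.natDegree_le_iff_coeff_eq_zero]
    intro i hi
    rw [Polynomial.coeff_C_mul, Polynomial.coeff_sub, Polynomial.coeff_X_pow]
    rcases eq_or_ne i 4 with h | h
    · rw [h, if_pos rfl]
      have : n.coeff 4 = 1 := by rw [← h4]; exact hn
      rw [this, sub_self, mul_zero]
    · rw [if_neg h, Polynomial.coeff_eq_zero_of_natDegree_lt (by omega), sub_zero, mul_zero]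
  rw [Finset.sum_congr rfl fun c _ => key c, Finset.sum_const, Finset.card_univ, hp]

theorem cusp0 {κ : Type} [Field κ] [Fintype κ] [Algebra Fq κ] (ev : Fq[X] →ₐ[Fq] κ)
    (hn : n.Monic) (h4 : n.natDegree = 4) (hs : Function.Surjective ev) (hk : ∀ b, ev b = 0 ↔ n ∣ b)
    (h0 : Fam0 n Φ) (hp : ∀ x : N, (Fintype.card Fq) • x = 0) (hinf : Φ 1 1 0 = 0) :
    Φ !![0, 1; 1, 0] (-3) 0 = 0 := by
  classical
  have hn0 : emb Fq n ≠ 0 := emb_ne hn.ne_zero
  have hwell : ∀ b b' : Fq[X], ev b = ev b' → Φ 1 5 (emb Fq b / emb Fq n) = Φ 1 5 (emb Fq b' / emb Fq n) := by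
    intro b b' h
    rw [← sub_eq_zero, ← map_sub, hk] at h
    obtain ⟨a, ha⟩ := h
    have e : emb Fq b / emb Fq n = emb Fq b' / emb Fq n + emb Fq a := by
      have : b = b' + n * a := by rw [← ha]; ring
      rw [this, map_add, map_mul]
      field_simp
    rw [e, per h0]
  obtain ⟨Gf, hGf⟩ : ∃ Gf : κ → N, ∀ b, Gf (ev b) = Φ 1 5 (emb Fq b / emb Fq n) :=
    ⟨fun x => Φ 1 5 (emb Fq (Function.surjInv hs x) / emb Fq n), fun b =>
      hwell _ _ (Function.surjInv_eq hs (ev b))⟩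
  have hhom : ∀ c : Fq, c ≠ 0 → ∀ b, Gf (algebraMap Fq κ c * b) = Gf b := by
    intro c hc b
    obtain ⟨p, rfl⟩ := hs b
    have e : algebraMap Fq κ c * ev p = ev (Polynomial.C c * p) := by
      rw [map_mul]
      congr 1
      exact (ev.commutes c).symm
    rw [e, hGf, hGf, map_mul, Pool.Agent.J4H8.HP.emb_C, mul_div_assoc, hom h0 _ _ hc]
  have hone : ∀ (r : Fq[X]), Φ 1 4 (emb Fq r / emb Fq n) = ∑ x : Fq, Gf (ev r + algebraMap Fq κ x) := by
    intro r
    have h1 := refine5 hn h4 h0 1 r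
    have e1 : (5 : ℤ) - ((1 : ℕ) : ℤ) = 4 := by norm_num
    rw [e1] at h1
    rw [h1]
    refine Fintype.sum_equiv (Equiv.funUnique (Fin 1) Fq) _ _ fun v => ?_
    rw [← hGf, map_add]
    congr 2
    have : pol v = Polynomial.C (v 0) := by
      unfold pol
      simp
    rw [this]
    exact ev.commutes _
  -- the four relations
  have hG0 : Gf 0 = 0 := by
    have := hGf 0
    rw [map_zero, map_zero, zero_div, zero5' hn h4 h0 hp] at this
    exact this
  have hGx : ∑ x : Fq, Gf (algebraMap Fq κ x) = -Φ !![0, 1; 1, 0] (-3) 0 := by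
    have h1 := hone 0
    rw [map_zero, map_zero, zero_div, rev h0] at h1
    have e : (1 : ℤ) - 4 = -3 := by norm_num
    rw [e] at h1
    rw [h1]
    refine Finset.sum_congr rfl fun x _ => ?_
    rw [zero_add]
  have hinv : ∀ b, b ≠ 0 → Gf b = -∑ x : Fq, Gf (b⁻¹ + algebraMap Fq κ x) := by
    intro b hb
    obtain ⟨p, rfl⟩ := hs b
    obtain ⟨p', hp'⟩ := hs (ev p)⁻¹
    have hpp : n ∣ p * p' - 1 := by
      rw [← hk, map_sub, map_mul, hp', map_one, mul_inv_cancel₀ hb, sub_self]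
    obtain ⟨e, he⟩ := hpp
    obtain ⟨γ, hγ⟩ : ∃ γ : Matrix (Fin 2) (Fin 2) Fq[X], γ = !![p, e; n, p'] := ⟨_, rfl⟩
    have hdet : IsUnit γ.det := by
      rw [hγ, Matrix.det_fin_two_of]
      have : p * p' - e * n = 1 := by linear_combination he
      rw [this]; exact isUnit_one
    have e10 : γ 1 0 = n := by rw [hγ]; rfl
    have e00 : γ 0 0 = p := by rw [hγ]; rfl
    have e11 : γ 1 1 = p' := by rw [hγ]; rfl
    have h1 := h0.moebB 1 γ det_one' hdet 4 (emb Fq (-p') / emb Fq n) (by rw [e10]; exact hn.ne_zero) (by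
      unfold den
      rw [e10, e11, map_neg]
      have : emb Fq n * (-emb Fq p' / emb Fq n) + emb Fq p' = 0 := by
        field_simp
        ring
      rw [this]
      exact val_zero _)
    have h2 := h0.inv 1 det_one' γ hdet (by rw [e10])
    rw [Matrix.mul_one] at h2
    rw [Matrix.one_mul, h2, e10, e00, h4] at h1
    have e3 : (1 : ℤ) - 4 + 2 * ((4 : ℕ) : ℤ) = 5 := by norm_num
    rw [e3, hone] at h1
    rw [hGf, ← neg_eq_iff_eq_neg, ← h1, ← hp']
    rw [← Equiv.sum_comp (Equiv.neg Fq)]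
    refine Finset.sum_congr rfl fun x _ => ?_
    have h3 := hhom (-1) (neg_ne_zero.2 one_ne_zero) (ev p' + algebraMap Fq κ x)
    rw [← h3]
    congr 1
    simp only [Equiv.neg_apply, map_neg, map_one]
    ring
  have htot : ∑ b, Gf b = 0 := by
    have h1 := refine5 hn h4 h0 4 0
    have e1 : (5 : ℤ) - ((4 : ℕ) : ℤ) = 1 := by norm_num
    rw [e1, map_zero, zero_div, hinf] at h1
    rw [h1]
    refine (Fintype.sum_bijective _ (res_bij ev hn h4 hs hk) _ _ fun v => ?_).symm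
    rw [hGf, zero_add]
  -- sum over `b ≠ 0`
  have h1 : ∑ b ∈ Finset.univ.erase (0 : κ), Gf b = 0 := by
    rw [← Finset.add_sum_erase _ _ (Finset.mem_univ (0 : κ)), hG0, zero_add] at htot
    exact htot
  have h2 : ∑ b ∈ Finset.univ.erase (0 : κ), Gf b =
      -∑ x : Fq, ∑ b ∈ Finset.univ.erase (0 : κ), Gf (b + algebraMap Fq κ x) := by
    rw [Finset.sum_comm, ← Finset.sum_neg_distrib]
    refine Finset.sum_bij (fun b _ => b⁻¹) ?_ ?_ ?_ ?_
    · intro b hb
      rw [Finset.mem_erase] at hb ⊢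
      exact ⟨inv_ne_zero hb.1, Finset.mem_univ _⟩
    · intro a _ b _ h
      exact inv_injective h
    · intro b hb
      rw [Finset.mem_erase] at hb
      exact ⟨b⁻¹, Finset.mem_erase.2 ⟨inv_ne_zero hb.1, Finset.mem_univ _⟩, inv_inv b⟩
    · intro b hb
      exact hinv b (Finset.mem_erase.1 hb).1
  have h3 : ∀ x : Fq, ∑ b ∈ Finset.univ.erase (0 : κ), Gf (b + algebraMap Fq κ x) =
      -Gf (algebraMap Fq κ x) := by
    intro x
    have h4 : ∑ b : κ, Gf (b + algebraMap Fq κ x) = 0 := by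
      rw [← htot]
      exact Equiv.sum_comp (Equiv.addRight (algebraMap Fq κ x)) Gf
    rw [← Finset.add_sum_erase _ _ (Finset.mem_univ (0 : κ)), zero_add] at h4
    exact (neg_eq_of_add_eq_zero_right h4).symm
  rw [h1] at h2
  simp only [h3] at h2
  rw [Finset.sum_neg_distrib, neg_neg, hGx] at h2
  exact neg_eq_zero.1 h2.symm

end

/-- K11 -/
theorem t_CUSPC : S_CUSPC := by
  intro Fq _ _ n hn h4 hirr N _ hp Φ h0 hinf
  haveI : Fact (Irreducible n) := ⟨hirr⟩
  haveI : Module.Finite Fq (AdjoinRoot n) := hn.finite_adjoinRoot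
  haveI : Finite (AdjoinRoot n) := Module.finite_of_finite Fq
  letI : Fintype (AdjoinRoot n) := Fintype.ofFinite _
  refine cusp0 (κ := AdjoinRoot n) (AdjoinRoot.mkₐ n) hn h4 ?_ ?_ h0 hp hinf
  · exact AdjoinRoot.mk_surjective
  · intro b
    exact AdjoinRoot.mk_eq_zero

end Pool.Agent.J4H69.HP
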