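import Pool.Agent.J4H98.HP.Jobs2

/-!
# Project HP, K14: linear algebra of the pairing
-/

namespace Pool.Agent.J4H69.HP

open Pool.Agent.J4H98.HP

/-- K14 -/
theorem t_PERFC : S_PERFC := by
  intro C M _ _ _ _ T b hcomm hker B hB
  apply LinearMap.IsPerfPair.of_injective'
  · rw [injective_iff_map_eq_zero]
    intro θ hθ
    apply Subtype.ext
    apply LinearMap.ext
    intro f
    change θ.1 f = 0
    apply hker
    intro θ' hθ'
    have h1 : θ' (θ.1 f) = θ.1 (θ' f) := by
      have := hcomm θ' hθ' θ.1 θ.2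
      exact LinearMap.congr_fun this f
    rw [h1, ← hB θ (θ' f), hθ]
    rfl
  · rw [injective_iff_map_eq_zero]
    intro f hf
    apply hker
    intro θ hθ
    have h1 := LinearMap.congr_fun hf ⟨θ, hθ⟩
    rw [LinearMap.flip_apply, hB] at h1
    exact h1

end Pool.Agent.J4H69.HP
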