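import Pool.Agent.J4H98.HP.Jobs2
import Pool.Agent.N814.DR.Slash

/-!
# Project HP, K9: the `q`-th coefficient of `T_g f`
-/

open Polynomial Matrix Filter Topology Finset

namespace Pool.Agent.J4H69.HP

open Pool.Agent.J4H98.HP
open Pool.Agent.TH828.DM (Omega OmegaN IsRigidAnalytic expA res HasRes pt avg Reg Circ RegOK Good good_of_approx
  card_cast two_le_card pt_sub norm_algebraMap norm_algebraMap_le norm_aeval aeval_mem_Kinf exists_poly_near
  exists_pt pt_eq_aeval pt_succ pt_zero norm_pt_le one_le_norm_pt norm_s norm_t_eq norm_t_pow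
  norm_sub_of_gt norm_sub_of_lt norm_add_of_lt norm_add_of_gt norm_add_le_of norm_sub_le_of inner_mem_omega)
open Pool.Agent.N814.DR (slash SmallAtInfinity slash_of_mem jf mob aeval_ne_zero)

/-! ### substitution -/

section
variable {C : Type*} [NontriviallyNormedField C]

lemma avg_affine (N : ℕ) (g : C → C) {α : C} (hα : α ≠ 0) (β a s : C) :
    avg N (fun z => g (α * z + β)) a s = α⁻¹ * avg N g (α * a + β) (α * s) := by
  unfold avg
  rw [mul_left_comm]
  congr 1
  rw [Finset.mul_sum]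
  apply Finset.sum_congr rfl
  intro ζ _
  have e : α * (a + s * ζ) + β = α * a + β + α * s * ζ := by ring
  beta_reduce
  rw [e]
  field_simp

lemma hasRes_affine {q : ℕ} {g : C → C} {α β a s v : C} (hα : α ≠ 0)
    (h : HasRes q g (α * a + β) (α * s) v) : HasRes q (fun z => g (α * z + β)) a s (α⁻¹ * v) := by
  unfold HasRes at *
  simp only [avg_affine _ g hα]
  exact Tendsto.const_mul _ h

lemma hasRes_zero {q : ℕ} {a s : C} : HasRes q (fun _ => (0 : C)) a s 0 := by
  unfold HasRes avg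
  simp

end

/-! ### functions approximable by polynomials -/

section
variable {C : Type*} [NontriviallyNormedField C]

/-- uniform limits of polynomials on every disc -/
def PA (h : C → C) : Prop :=
  ∀ R : ℝ, ∀ ε : ℝ, 0 < ε → ∃ P : C[X], ∀ z : C, ‖z‖ ≤ R → ‖h z - P.eval z‖ ≤ ε

lemma norm_eval_bdd (P : C[X]) (R : ℝ) : ∃ M : ℝ, 0 ≤ M ∧ ∀ z : C, ‖z‖ ≤ R → ‖P.eval z‖ ≤ M := by
  by_cases hR : 0 ≤ R
  · refine ⟨∑ i ∈ Finset.range (P.natDegree + 1), ‖P.coeff i‖ * R ^ i, by positivity, fun z hz => ?_⟩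
    rw [Polynomial.eval_eq_sum_range]
    refine (norm_sum_le _ _).trans (Finset.sum_le_sum fun i _ => ?_)
    rw [norm_mul, norm_pow]
    exact mul_le_mul_of_nonneg_left (pow_le_pow_left₀ (norm_nonneg _) hz i) (norm_nonneg _)
  · exact ⟨0, le_rfl, fun z hz => absurd ((norm_nonneg z).trans hz) hR⟩

lemma PA.bdd {h : C → C} (hh : PA h) (R : ℝ) : ∃ M : ℝ, 0 ≤ M ∧ ∀ z : C, ‖z‖ ≤ R → ‖h z‖ ≤ M := by
  obtain ⟨P, hP⟩ := hh R 1 one_pos
  obtain ⟨M, hM0, hM⟩ := norm_eval_bdd P R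
  refine ⟨M + 1, by positivity, fun z hz => ?_⟩
  have e : h z = P.eval z + (h z - P.eval z) := by ring
  rw [e]
  exact (norm_add_le _ _).trans (add_le_add (hM z hz) (hP z hz))

lemma PA.mul {g h : C → C} (hg : PA g) (hh : PA h) : PA (fun z => g z * h z) := by
  intro R ε hε
  obtain ⟨M, hM0, hM⟩ := hg.bdd R
  obtain ⟨P, hP⟩ := hh R (ε / (2 * (M + 1))) (by positivity)
  obtain ⟨M', hM0', hM'⟩ := norm_eval_bdd P R
  obtain ⟨Q, hQ⟩ := hg R (ε / (2 * (M' + 1))) (by positivity)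
  refine ⟨Q * P, fun z hz => ?_⟩
  have e : g z * h z - (Q * P).eval z = g z * (h z - P.eval z) + (g z - Q.eval z) * P.eval z := by
    rw [Polynomial.eval_mul]; ring
  rw [e]
  have h1 : ‖g z * (h z - P.eval z)‖ ≤ ε / 2 := by
    rw [norm_mul]
    calc ‖g z‖ * ‖h z - P.eval z‖ ≤ (M + 1) * (ε / (2 * (M + 1))) :=
          mul_le_mul ((hM z hz).trans (by linarith)) (hP z hz) (norm_nonneg _) (by positivity)
      _ = ε / 2 := by field_simp
  have h2 : ‖(g z - Q.eval z) * P.eval z‖ ≤ ε / 2 := by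
    rw [norm_mul]
    calc ‖g z - Q.eval z‖ * ‖P.eval z‖ ≤ (ε / (2 * (M' + 1))) * (M' + 1) :=
          mul_le_mul (hQ z hz) ((hM' z hz).trans (by linarith)) (norm_nonneg _) (by positivity)
      _ = ε / 2 := by field_simp
  calc _ ≤ ‖g z * (h z - P.eval z)‖ + ‖(g z - Q.eval z) * P.eval z‖ := norm_add_le _ _
    _ ≤ ε / 2 + ε / 2 := add_le_add h1 h2
    _ = ε := by ring

lemma PA.one : PA (fun _ : C => (1 : C)) := by
  intro R ε hε
  exact ⟨1, fun z _ => by simp [hε.le]⟩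

lemma PA.pow {g : C → C} (hg : PA g) (n : ℕ) : PA (fun z => g z ^ n) := by
  induction n with
  | zero => simpa using PA.one
  | succ n ih => simpa only [pow_succ] using ih.mul hg

lemma PA.scale {g : C → C} (hg : PA g) (α : C) : PA (fun z => g (α * z)) := by
  intro R ε hε
  obtain ⟨P, hP⟩ := hg (‖α‖ * R) ε hε
  refine ⟨P.comp (Polynomial.C α * X), fun z hz => ?_⟩
  have h1 := hP (α * z) (by
    rw [norm_mul]
    exact mul_le_mul_of_nonneg_left hz (norm_nonneg _))
  simpa [Polynomial.eval_comp] using h1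

end

/-! ### the residue theorem -/

section
variable {F : Type*} [Field F] [Fintype F] {C : Type*} [NontriviallyNormedField C] [IsUltrametricDist C]
  [Algebra F C] [CompleteSpace C] [IsAlgClosed C] {t s : C}

lemma good_mul {f h : C → C} (hf : IsRigidAnalytic F t f) (hh : PA h) {ι : Type*} [Fintype ι] {p : ι → C}
    {s₀ s₁ : C} (H : RegOK p s₀ s₁) {N : ℕ} (hN : ∀ z ∈ Reg p s₀ s₁, z ∈ OmegaN F t N) :
    Good (Fintype.card F) p s₀ s₁ (fun z => f z * h z) := by
  have hf1 : Good (Fintype.card F) p s₀ s₁ f := by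
    apply good_of_approx (card_cast F C) two_le_card H
    intro ε hε
    obtain ⟨P, Q, hQ, hPQ⟩ := hf N ε hε
    exact ⟨P, Q, fun z hz => hQ z (hN z hz), fun z hz => hPQ z (hN z (H.circ_sub hz))⟩
  obtain ⟨⟨M, hM0, hM⟩, _⟩ := hf1
  apply good_of_approx (card_cast F C) two_le_card H
  intro ε hε
  obtain ⟨P', hP'⟩ := hh ‖s₀‖ (ε / (2 * (M + 1))) (by positivity)
  obtain ⟨M', hM0', hM'⟩ := norm_eval_bdd P' ‖s₀‖
  obtain ⟨P, Q, hQ, hPQ⟩ := hf N (ε / (2 * (M' + 1))) (by positivity)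
  refine ⟨P * P', Q, fun z hz => hQ z (hN z hz), fun z hz => ?_⟩
  have hzR := H.circ_sub hz
  have e : f z * h z - (P * P').eval z / Q.eval z =
      f z * (h z - P'.eval z) + (f z - P.eval z / Q.eval z) * P'.eval z := by
    rw [Polynomial.eval_mul]; ring
  rw [e]
  have h1 : ‖f z * (h z - P'.eval z)‖ ≤ ε / 2 := by
    rw [norm_mul]
    calc ‖f z‖ * ‖h z - P'.eval z‖ ≤ (M + 1) * (ε / (2 * (M + 1))) :=
          mul_le_mul ((hM z hz).trans (by linarith)) (hP' z hzR.1) (norm_nonneg _) (by positivity)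
      _ = ε / 2 := by field_simp
  have h2 : ‖(f z - P.eval z / Q.eval z) * P'.eval z‖ ≤ ε / 2 := by
    rw [norm_mul]
    calc ‖f z - P.eval z / Q.eval z‖ * ‖P'.eval z‖ ≤ (ε / (2 * (M' + 1))) * (M' + 1) :=
          mul_le_mul (hPQ z (hN z hzR)) ((hM' z hzR.1).trans (by linarith)) (norm_nonneg _) (by positivity)
      _ = ε / 2 := by field_simp
  calc _ ≤ ‖f z * (h z - P'.eval z)‖ + ‖(f z - P.eval z / Q.eval z) * P'.eval z‖ := norm_add_le _ _
    _ ≤ ε / 2 + ε / 2 := add_le_add h1 h2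
    _ = ε := by ring

end

/-! ### the two regions -/

section
variable {F : Type*} [Field F] [Fintype F] {C : Type*} [NontriviallyNormedField C] [IsUltrametricDist C]
  [Algebra F C] {t s : C}

lemma norm_pt_lt (hs : s ^ 2 = t) (ht : 1 < ‖t‖) {m : ℕ} (b : Fin m → F) : ‖pt t b‖ < ‖t‖ ^ m * ‖s⁻¹‖ := by
  have hs1 := norm_s hs ht
  have hs0 : 0 < ‖s⁻¹‖ := by rw [norm_inv]; positivity
  cases m with
  | zero =>
    have : pt t b = 0 := by unfold pt; simp
    rw [this, norm_zero]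
    simpa using hs0
  | succ m =>
    refine (norm_pt_le ht b).trans_lt ?_
    rw [pow_succ, mul_assoc]
    have h1 : 1 < ‖t‖ * ‖s⁻¹‖ := by
      rw [norm_t_eq hs, norm_inv]
      field_simp
      exact hs1
    have h2 : 0 < ‖t‖ ^ m := by positivity
    nlinarith

/-- the region of type B -/
lemma regOK_B (hs : s ^ 2 = t) (ht : 1 < ‖t‖) {m : ℕ} {G : C} (hG : ‖G‖ = ‖t‖ ^ m) :
    RegOK (fun b : Fin m → F => pt t b) (G * s⁻¹) s⁻¹ := by
  have hs1 := norm_s hs ht
  have hs0 : s ≠ 0 := norm_pos_iff.1 (by linarith)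
  have ht1 : 1 ≤ ‖t‖ ^ m := one_le_pow₀ ht.le
  refine ⟨inv_ne_zero hs0, ?_, ?_, ?_⟩
  · rw [norm_mul, hG]
    exact le_mul_of_one_le_left (norm_nonneg _) ht1
  · intro b
    rw [norm_mul, hG]
    exact norm_pt_lt hs ht b
  · intro b c hbc
    rw [pt_sub, norm_inv]
    exact (inv_lt_one_of_one_lt₀ hs1).trans_le (one_le_norm_pt ht (sub_ne_zero.2 hbc))

lemma dist_B (hs : s ^ 2 = t) (ht : 1 < ‖t‖) {m : ℕ} {G : C} (hG : ‖G‖ = ‖t‖ ^ m) {z : C}
    (hz : z ∈ Reg (fun b : Fin m → F => pt t b) (G * s⁻¹) s⁻¹) {x : C}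
    (hx : x ∈ Pool.Agent.TH828.DM.Kinf F t) : ‖s⁻¹‖ ≤ ‖z - x‖ := by
  have hs1 := norm_s hs ht
  obtain ⟨h1, h2⟩ := hz
  rw [norm_mul, hG] at h1
  have hlt : ‖t‖⁻¹ < ‖s⁻¹‖ := by
    rw [norm_inv]
    apply inv_strictAnti₀ (by linarith)
    rw [norm_t_eq hs]
    nlinarith
  have hsi : ‖s⁻¹‖ < 1 := by
    rw [norm_inv]
    exact inv_lt_one_of_one_lt₀ hs1
  obtain ⟨a, ha⟩ := exists_poly_near ht hx
  by_cases hdeg : a = 0 ∨ a.natDegree < m
  · obtain ⟨b, hb⟩ : ∃ b : Fin m → F, aeval t a = pt t b := by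
      rcases hdeg with h | h
      · refine ⟨0, ?_⟩
        rw [h, map_zero, pt_zero]
      · exact exists_pt t h
    have h3 : ‖s⁻¹‖ ≤ ‖z - pt t b‖ := h2 b
    have e : z - x = (z - pt t b) - (x - aeval t a) := by rw [hb]; ring
    have h4 : ‖x - aeval t a‖ < ‖z - pt t b‖ := ha.trans_lt (hlt.trans_le h3)
    rw [e, norm_sub_of_gt h4]
    exact h3
  · push Not at hdeg
    obtain ⟨ha0, hd⟩ := hdeg
    have h3 : ‖t‖ ^ m ≤ ‖aeval t a‖ := by
      rw [norm_aeval ht ha0]
      exact pow_le_pow_right₀ ht.le hd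
    have ht1 : 1 ≤ ‖t‖ ^ m := one_le_pow₀ ht.le
    have h4 : ‖x‖ = ‖aeval t a‖ := by
      have e : x = (x - aeval t a) + aeval t a := by ring
      rw [e]
      apply norm_add_of_lt
      refine ha.trans_lt (lt_of_lt_of_le (inv_lt_one_of_one_lt₀ ht) (ht1.trans h3))
    have h5 : ‖z‖ < ‖x‖ := by
      rw [h4]
      refine lt_of_lt_of_le (h1.trans_lt ?_) h3
      have : 0 < ‖t‖ ^ m := by positivity
      nlinarith
    rw [norm_sub_of_lt h5, h4]
    exact hsi.le.trans (ht1.trans h3)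

lemma reg_B_sub (hs : s ^ 2 = t) (ht : 1 < ‖t‖) {m : ℕ} {G : C} (hG : ‖G‖ = ‖t‖ ^ m) {z : C}
    (hz : z ∈ Reg (fun b : Fin m → F => pt t b) (G * s⁻¹) s⁻¹) : z ∈ OmegaN F t (m + 1) := by
  have hs1 := norm_s hs ht
  have ht1 : 1 ≤ ‖t‖ ^ m := one_le_pow₀ ht.le
  refine ⟨?_, fun x hx => le_trans ?_ (dist_B hs ht hG hz hx)⟩
  · have h1 := hz.1
    rw [norm_mul, hG] at h1
    refine h1.trans ?_
    rw [pow_succ]
    apply mul_le_mul_of_nonneg_left _ (by positivity)
    rw [norm_inv]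
    exact (inv_le_one_of_one_le₀ hs1.le).trans ht.le
  · rw [norm_inv]
    apply inv_anti₀ (by linarith)
    calc ‖s‖ ≤ ‖t‖ := by rw [norm_t_eq hs]; nlinarith
      _ = 1 * ‖t‖ := (one_mul _).symm
      _ ≤ ‖t‖ ^ m * ‖t‖ := mul_le_mul_of_nonneg_right ht1 (norm_nonneg _)
      _ = _ := (pow_succ _ _).symm

/-- the region of type A -/
lemma regOK_A (hs : s ^ 2 = t) (ht : 1 < ‖t‖) {m : ℕ} {G : C} (hG : ‖G‖ = ‖t‖ ^ m) :
    RegOK (fun b : Fin m → F => G⁻¹ * pt t b) s⁻¹ (G⁻¹ * s⁻¹) := by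
  have hs1 := norm_s hs ht
  have hs0 : s ≠ 0 := norm_pos_iff.1 (by linarith)
  have ht1 : 1 ≤ ‖t‖ ^ m := one_le_pow₀ ht.le
  have hG0 : G ≠ 0 := norm_pos_iff.1 (by rw [hG]; positivity)
  have hGp : 0 < ‖G‖ := norm_pos_iff.2 hG0
  refine ⟨mul_ne_zero (inv_ne_zero hG0) (inv_ne_zero hs0), ?_, ?_, ?_⟩
  · rw [norm_mul, norm_inv G, hG]
    exact mul_le_of_le_one_left (norm_nonneg _) (inv_le_one_of_one_le₀ ht1)
  · intro b
    rw [norm_mul, norm_inv G, inv_mul_lt_iff₀ hGp, hG]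
    exact norm_pt_lt hs ht b
  · intro b c hbc
    rw [← mul_sub, pt_sub, norm_mul, norm_mul]
    apply mul_lt_mul_of_pos_left _ (by rw [norm_inv]; positivity)
    rw [norm_inv]
    exact (inv_lt_one_of_one_lt₀ hs1).trans_le (one_le_norm_pt ht (sub_ne_zero.2 hbc))

lemma reg_A_sub (hs : s ^ 2 = t) (ht : 1 < ‖t‖) {m : ℕ} {G : C} (hG : ‖G‖ = ‖t‖ ^ m)
    (hGK : G ∈ Pool.Agent.TH828.DM.Kinf F t) {z : C}
    (hz : z ∈ Reg (fun b : Fin m → F => G⁻¹ * pt t b) s⁻¹ (G⁻¹ * s⁻¹)) : z ∈ OmegaN F t (m + 1) := by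
  have hs1 := norm_s hs ht
  have ht1 : 1 ≤ ‖t‖ ^ m := one_le_pow₀ ht.le
  have hG0 : G ≠ 0 := norm_pos_iff.1 (by rw [hG]; positivity)
  have hGp : 0 < ‖G‖ := norm_pos_iff.2 hG0
  obtain ⟨h1, h2⟩ := hz
  have hB : G * z ∈ Reg (fun b : Fin m → F => pt t b) (G * s⁻¹) s⁻¹ := by
    refine ⟨?_, fun b => ?_⟩
    · rw [norm_mul, norm_mul]
      exact mul_le_mul_of_nonneg_left h1 (norm_nonneg _)
    · have h3 : ‖G⁻¹ * s⁻¹‖ ≤ ‖z - G⁻¹ * pt t b‖ := h2 b
      have e : G * z - pt t b = G * (z - G⁻¹ * pt t b) := by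
        rw [mul_sub, mul_inv_cancel_left₀ hG0]
      change ‖s⁻¹‖ ≤ ‖G * z - pt t b‖
      rw [e, norm_mul]
      rw [norm_mul, norm_inv G] at h3
      calc ‖s⁻¹‖ = ‖G‖ * (‖G‖⁻¹ * ‖s⁻¹‖) := by field_simp
        _ ≤ _ := mul_le_mul_of_nonneg_left h3 (norm_nonneg _)
  refine ⟨?_, fun x hx => ?_⟩
  · refine h1.trans ?_
    rw [norm_inv]
    exact (inv_le_one_of_one_le₀ hs1.le).trans (one_le_pow₀ ht.le)
  · have h3 := dist_B hs ht hG hB (mul_mem hGK hx)
    rw [← mul_sub, norm_mul, hG] at h3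
    have h4 : 0 < ‖t‖ ^ m := by positivity
    rw [pow_succ, mul_inv]
    calc (‖t‖ ^ m)⁻¹ * ‖t‖⁻¹ ≤ (‖t‖ ^ m)⁻¹ * ‖s⁻¹‖ := by
          apply mul_le_mul_of_nonneg_left _ (by positivity)
          rw [norm_inv]
          apply inv_anti₀ (by linarith)
          rw [norm_t_eq hs]; nlinarith
      _ ≤ (‖t‖ ^ m)⁻¹ * (‖t‖ ^ m * ‖z - x‖) := mul_le_mul_of_nonneg_left h3 (by positivity)
      _ = ‖z - x‖ := by field_simp

end

/-! ### sums of powers -/

section
variable {F : Type*} [Field F] [Fintype F] {C : Type*} [Field C] [Algebra F C]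

lemma sum_pow_top : ∑ b : F, b ^ (Fintype.card F - 1) = -1 := by
  classical
  have hq : 1 < Fintype.card F := Fintype.one_lt_card
  have h1 : ∀ b : F, b ^ (Fintype.card F - 1) = if b = 0 then 0 else 1 := by
    intro b
    split_ifs with h
    · rw [h, zero_pow (by omega)]
    · exact FiniteField.pow_card_sub_one_eq_one b h
  have h2 : ∀ b : F, (if b = 0 then (0 : F) else 1) = 1 - if b = 0 then 1 else 0 := by
    intro b
    split_ifs <;> simp
  simp only [h1, h2]
  rw [Finset.sum_sub_distrib]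
  simp

lemma sum_shift_C (x : C) : ∑ b : F, (x + algebraMap F C b) ^ (Fintype.card F - 1) = -1 := by
  have hq : 1 < Fintype.card F := Fintype.one_lt_card
  simp_rw [add_pow]
  rw [Finset.sum_comm, Finset.sum_eq_single 0]
  · have := congrArg (algebraMap F C) (sum_pow_top (F := F))
    simpa using this
  · intro j hj hj0
    have hj' : j < Fintype.card F - 1 + 1 := Finset.mem_range.1 hj
    have h1 := congrArg (algebraMap F C)
      (FiniteField.sum_pow_lt_card_sub_one F (Fintype.card F - 1 - j) (by omega))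
    rw [map_sum, map_zero] at h1
    simp only [map_pow] at h1
    rw [← Finset.sum_mul, ← Finset.mul_sum, h1]
    ring
  · intro h
    exact absurd (Finset.mem_range.2 (by omega)) h

lemma sum_line (x e : C) : ∑ b : F, (x + algebraMap F C b * e) ^ (Fintype.card F - 1) =
    -e ^ (Fintype.card F - 1) := by
  have hq : 1 < Fintype.card F := Fintype.one_lt_card
  have hqC : (Fintype.card F : C) = 0 := by
    rw [← map_natCast (algebraMap F C), FiniteField.cast_card_eq_zero, map_zero]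
  by_cases he : e = 0
  · subst he
    simp only [mul_zero, add_zero, Finset.sum_const, Finset.card_univ, nsmul_eq_mul, hqC, zero_mul]
    rw [zero_pow (by omega), neg_zero]
  · have h1 : ∀ b : F, (x + algebraMap F C b * e) ^ (Fintype.card F - 1) =
        e ^ (Fintype.card F - 1) * (x / e + algebraMap F C b) ^ (Fintype.card F - 1) := by
      intro b
      rw [← mul_pow]
      congr 1
      field_simp
    simp only [h1]
    rw [← Finset.mul_sum, sum_shift_C]
    ring

lemma sum_space {m : ℕ} (E : (Fin (m + 1) → F) → C) (hadd : ∀ v w, E (v + w) = E v + E w)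
    (hsm : ∀ (c : F) (w), E (c • w) = algebraMap F C c * E w) :
    ∃ K : C, ∀ x : C, ∑ w, (x + E w) ^ (Fintype.card F - 1) = K := by
  classical
  refine ⟨∑ w' : Fin m → F, -(E (Fin.cons 1 0)) ^ (Fintype.card F - 1), fun x => ?_⟩
  rw [← (Fin.consEquiv (fun _ => F)).sum_comp, Fintype.sum_prod_type, Finset.sum_comm]
  apply Finset.sum_congr rfl
  intro w' _
  rw [← sum_line (F := F) (x + E (Fin.cons 0 w')) (E (Fin.cons 1 0))]
  apply Finset.sum_congr rfl
  intro b _
  congr 1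
  have e : (Fin.consEquiv (fun _ => F)) (b, w') = b • (Fin.cons 1 0 : Fin (m + 1) → F) + Fin.cons 0 w' := by
    funext i
    refine Fin.cases ?_ (fun j => ?_) i
    · simp [Fin.consEquiv]
    · simp [Fin.consEquiv]
  rw [e, hadd, hsm]
  ring

end

/-! ### polynomials of bounded degree -/

section
variable {F : Type} [Field F]

/-- the polynomial with given coefficients -/
noncomputable def pw {m : ℕ} (w : Fin m → F) : F[X] := ∑ i : Fin m, monomial (i : ℕ) (w i)

lemma pw_coeff {m : ℕ} (w : Fin m → F) (i : Fin m) : (pw w).coeff i = w i := by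
  unfold pw
  simp only [Polynomial.finsetSum_coeff, Polynomial.coeff_monomial]
  rw [Finset.sum_eq_single i]
  · simp
  · intro j _ hj
    rw [if_neg]
    intro h
    exact hj (Fin.ext h)
  · intro h; exact absurd (Finset.mem_univ _) h

lemma pw_degree {m : ℕ} (w : Fin m → F) : (pw w).degree < m := by
  unfold pw
  rw [Polynomial.degree_lt_iff_coeff_zero]
  intro k hk
  simp only [Polynomial.finsetSum_coeff, Polynomial.coeff_monomial]
  apply Finset.sum_eq_zero
  intro i _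
  rw [if_neg]
  have := i.2
  omega

lemma pw_inj {m : ℕ} : Function.Injective (pw (F := F) (m := m)) := by
  intro v w h
  funext i
  rw [← pw_coeff v i, h, pw_coeff]

lemma exists_pw {m : ℕ} {b : F[X]} (hb : b.degree < m) : ∃ w : Fin m → F, pw w = b := by
  refine ⟨fun i => b.coeff i, ?_⟩
  ext k
  by_cases hk : k < m
  · exact pw_coeff (fun i : Fin m => b.coeff i) ⟨k, hk⟩
  · rw [Polynomial.coeff_eq_zero_of_degree_lt, Polynomial.coeff_eq_zero_of_degree_lt]
    · refine lt_of_lt_of_le hb ?_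
      exact_mod_cast not_lt.1 hk
    · refine lt_of_lt_of_le (pw_degree _) ?_
      exact_mod_cast not_lt.1 hk

lemma pw_zero {m : ℕ} : pw (0 : Fin m → F) = 0 := by
  unfold pw; simp

/-- the translation `w ↦ w + c` modulo `d` -/
lemma exists_shift [Finite F] {d : F[X]} (hd : d.Monic) (c : F[X]) :
    ∃ σ : (Fin d.natDegree → F) ≃ (Fin d.natDegree → F), ∀ w, ∃ k : F[X], pw w + c = pw (σ w) + d * k := by
  have h1 : ∀ w : Fin d.natDegree → F, ∃ w' : Fin d.natDegree → F, pw w' = (pw w + c) %ₘ d := by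
    intro w
    apply exists_pw
    have := Polynomial.degree_modByMonic_lt (pw w + c) hd
    rwa [Polynomial.degree_eq_natDegree hd.ne_zero] at this
  choose σ hσ using h1
  have hinj : Function.Injective σ := by
    intro v w h
    have h2 : (pw v + c) %ₘ d = (pw w + c) %ₘ d := by rw [← hσ, ← hσ, h]
    have h3 : d ∣ pw v - pw w := by
      rw [← Polynomial.modByMonic_eq_zero_iff_dvd hd]
      have e : pw v - pw w = (pw v + c) - (pw w + c) := by ring
      rw [e, Polynomial.sub_modByMonic, h2, sub_self]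
    have h4 : (pw v - pw w).degree < d.degree := by
      rw [Polynomial.degree_eq_natDegree hd.ne_zero]
      exact (Polynomial.degree_sub_le _ _).trans_lt (max_lt (pw_degree v) (pw_degree w))
    have h5 := Polynomial.eq_zero_of_dvd_of_degree_lt h3 h4
    exact pw_inj (sub_eq_zero.1 h5)
  refine ⟨Equiv.ofBijective σ (Finite.injective_iff_bijective.1 hinj), fun w => ⟨(pw w + c) /ₘ d, ?_⟩⟩
  change _ = pw (σ w) + _
  rw [hσ, Polynomial.modByMonic_add_div]

lemma finite_natDegree_lt (F : Type) [Field F] [Finite F] (N : ℕ) : {a : F[X] | a.natDegree < N}.Finite := by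
  refine (Set.finite_range (pw (F := F) (m := N))).subset fun a ha => ?_
  have hb : a.degree < N := lt_of_le_of_lt Polynomial.degree_le_natDegree (by exact_mod_cast ha)
  obtain ⟨w, hw⟩ := exists_pw hb
  exact ⟨w, hw⟩

/-- the pairs `(a, d)` of the Hecke operator `T_g` -/
def Dset (n g : F[X]) : Set (F[X] × F[X]) :=
  {x | x.1.Monic ∧ x.2.Monic ∧ x.1 * x.2 = g ∧ IsCoprime x.1 n}

lemma Dset_finite [Finite F] (n : F[X]) {g : F[X]} (hg : g.Monic) : (Dset n g).Finite := by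
  refine ((finite_natDegree_lt F (g.natDegree + 1)).prod (finite_natDegree_lt F (g.natDegree + 1))).subset ?_
  rintro ⟨a, d⟩ ⟨ha, hd, hgd, -⟩
  have h1 : g.natDegree = a.natDegree + d.natDegree := by
    rw [← hgd]
    exact Polynomial.Monic.natDegree_mul ha hd
  refine ⟨?_, ?_⟩
  · change a.natDegree < _
    omega
  · change d.natDegree < _
    omega

lemma heckeMset_eq (n g : F[X]) : heckeMset n g =
    ⋃ x ∈ Dset n g, Set.range (fun w : Fin x.2.natDegree → F => !![x.1, pw w; 0, x.2]) := by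
  ext h
  simp only [heckeMset, Set.mem_setOf_eq, Set.mem_iUnion, Set.mem_range, exists_prop]
  constructor
  · rintro ⟨a, b, d, ha, hd, hg, hc, hb, rfl⟩
    rw [Polynomial.degree_eq_natDegree hd.ne_zero] at hb
    obtain ⟨w, hw⟩ := exists_pw hb
    exact ⟨(a, d), ⟨ha, hd, hg, hc⟩, w, by rw [hw]⟩
  · rintro ⟨⟨a, d⟩, ⟨ha, hd, hg, hc⟩, w, rfl⟩
    refine ⟨a, pw w, d, ha, hd, hg, hc, ?_, rfl⟩
    rw [Polynomial.degree_eq_natDegree hd.ne_zero]
    exact pw_degree w

lemma heckeM_eq [Finite F] {C : Type} [NormedField C] [Algebra F C] (t : C) (n : F[X]) {g : F[X]}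
    (hg : g.Monic) (f : C → C) :
    ∑ᶠ h ∈ heckeMset n g, slash F t 2 1 h f =
      ∑ x ∈ (Dset_finite n hg).toFinset,
        ∑ᶠ w : Fin x.2.natDegree → F, slash F t 2 1 !![x.1, pw w; 0, x.2] f := by
  rw [heckeMset_eq, finsum_mem_biUnion]
  · rw [finsum_mem_eq_finite_toFinset_sum _ (Dset_finite n hg)]
    apply Finset.sum_congr rfl
    intro x _
    rw [finsum_mem_range]
    intro v w h
    apply pw_inj
    have := congrFun (congrFun h 0) 1
    simpa using this
  · intro x _ y _ hxy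
    rw [Function.onFun, Set.disjoint_left]
    rintro _ ⟨v, rfl⟩ ⟨w, h⟩
    apply hxy
    have h1 := congrFun (congrFun h 0) 0
    have h2 := congrFun (congrFun h 1) 1
    simp only [Matrix.of_apply, Matrix.cons_val', Matrix.cons_val_zero, Matrix.cons_val_one,
      Matrix.cons_val_fin_one] at h1 h2
    exact Prod.ext h1.symm h2.symm
  · exact Dset_finite n hg
  · intro x _
    exact Set.finite_range _

end

/-! ### the pieces -/

section
variable {F : Type} [Field F] [Fintype F] {C : Type} [NontriviallyNormedField C] [IsUltrametricDist C]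
  [Algebra F C] [CompleteSpace C] [IsAlgClosed C] {t s : C} {f : C → C}

lemma pt_eq_pw (t : C) {m : ℕ} (w : Fin m → F) : pt t w = aeval t (pw w) := pt_eq_aeval t w

lemma slash_tri (ht : 1 < ‖t‖) {a b d : F[X]} (hd : d ≠ 0) {z : C} (hz : z ∈ Omega F t) :
    slash F t 2 1 !![a, b; 0, d] f z = (aeval t a * (aeval t d)⁻¹) *
      f ((aeval t d)⁻¹ * (aeval t a * z) + (aeval t d)⁻¹ * aeval t b) := by
  have hd' := aeval_ne_zero (F := F) (C := C) ht hd
  rw [slash_of_mem _ _ hz]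
  have e1 : (!![a, b; 0, d] : Matrix (Fin 2) (Fin 2) F[X]).det = a * d := by
    rw [Matrix.det_fin_two_of]; ring
  have e2 : jf t (!![a, b; 0, d] : Matrix (Fin 2) (Fin 2) F[X]) z = aeval t d := by
    unfold jf; simp
  have e3 : mob t (!![a, b; 0, d] : Matrix (Fin 2) (Fin 2) F[X]) z =
      (aeval t d)⁻¹ * (aeval t a * z) + (aeval t d)⁻¹ * aeval t b := by
    unfold mob
    rw [e2]
    simp
    field_simp
  rw [e1, e2, e3, zpow_one, map_mul]
  field_simp

lemma rigid_sum {ι : Type*} (T : Finset ι) (g : ι → C → C) (H : ∀ i ∈ T, IsRigidAnalytic F t (g i)) :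
    IsRigidAnalytic F t (fun z => ∑ i ∈ T, g i z) := by
  classical
  induction T using Finset.induction_on with
  | empty =>
    simp only [Finset.sum_empty]
    exact Pool.Agent.N814.DR.IsRigidAnalytic.zero' (F := F) (t := t)
  | insert x T hx ih =>
    simp only [Finset.sum_insert hx]
    exact Pool.Agent.N814.DR.IsRigidAnalytic.add' (H x (by simp)) (ih fun i hi => H i (by simp [hi]))

/-- the part `a = 1` of the Hecke operator -/
lemma piece_one (hs : s ^ 2 = t) (ht : 1 < ‖t‖) (hf : IsRigidAnalytic F t f) (hE : PA (expA F t))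
    (hadd : ∀ z z' : C, expA F t (z + z') = expA F t z + expA F t z')
    (hker : ∀ a : F[X], expA F t (aeval t a) = 0) {g : F[X]} (hg : g.Monic) :
    ∃ v, HasRes (Fintype.card F) (fun z => (∑ w : Fin g.natDegree → F,
        slash F t 2 1 !![1, pw w; 0, g] f z) * expA F t z ^ (Fintype.card F - 1)) 0 s⁻¹ v ∧
      HasRes (Fintype.card F) (fun z => f z * expA F t (aeval t g * z) ^ (Fintype.card F - 1)) 0 s⁻¹ v := by
  have hG := norm_aeval ht hg.ne_zero
  have hG0 := aeval_ne_zero (F := F) (C := C) ht hg.ne_zero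
  set G := aeval t g with hGdef
  obtain ⟨_, v0, v, h1, h2, h3⟩ := good_mul hf ((hE.scale G).pow (Fintype.card F - 1))
    (regOK_A (F := F) hs ht hG) (N := g.natDegree + 1)
    (fun z hz => reg_A_sub hs ht hG (aeval_mem_Kinf t g) hz)
  refine ⟨v0, ?_, h1⟩
  have h4 : ∀ w : Fin g.natDegree → F, HasRes (Fintype.card F)
      (fun z => G⁻¹ * (f (G⁻¹ * z + G⁻¹ * pt t w) *
        expA F t (G * (G⁻¹ * z + G⁻¹ * pt t w)) ^ (Fintype.card F - 1))) 0 s⁻¹ (v w) := by
    intro w
    have h5 := h2 w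
    have h6 : HasRes (Fintype.card F) (fun z => f z * expA F t (G * z) ^ (Fintype.card F - 1))
        (G⁻¹ * 0 + G⁻¹ * pt t w) (G⁻¹ * s⁻¹) (v w) := by
      rw [mul_zero, zero_add]
      exact h5
    have h7 := (hasRes_affine (inv_ne_zero hG0) h6).const_mul G⁻¹
    have e : G⁻¹ * (G⁻¹⁻¹ * v w) = v w := by field_simp
    rwa [e] at h7
  have h5 := HasRes.sum (T := Finset.univ) (fun w _ => h4 w)
  rw [← h3] at h5
  refine h5.congr two_le_card fun z hz => ?_
  rw [sub_zero] at hz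
  have hzO := inner_mem_omega (F := F) hs ht hz
  rw [Finset.sum_mul]
  apply Finset.sum_congr rfl
  intro w _
  rw [slash_tri ht hg.ne_zero hzO, map_one, one_mul, one_mul, ← hGdef, ← pt_eq_pw]
  have e : G * (G⁻¹ * z + G⁻¹ * pt t w) = z + pt t w := by
    rw [← mul_add, mul_inv_cancel_left₀ hG0]
  rw [e, hadd, pt_eq_pw t w, hker, add_zero]
  ring

/-- `V z = ∑ f((z + b) / d)` -/
noncomputable def Vf (t : C) (d : F[X]) (f : C → C) (z : C) : C :=
  ∑ w : Fin d.natDegree → F, f ((aeval t d)⁻¹ * z + (aeval t d)⁻¹ * pt t w)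

lemma Vf_rigid (ht : 1 < ‖t‖) (hf : IsRigidAnalytic F t f) {d : F[X]} (hd : d.Monic) :
    IsRigidAnalytic F t (Vf t d f) := by
  have hD0 := aeval_ne_zero (F := F) (C := C) ht hd.ne_zero
  refine Pool.Agent.N814.DR.IsRigidAnalytic.congr' ht (rigid_sum Finset.univ
    (fun (w : Fin d.natDegree → F) => aeval t d • slash F t 2 1 !![1, pw w; 0, d] f) fun w _ => ?_) fun z hz => ?_
  · apply Pool.Agent.N814.DR.IsRigidAnalytic.smul'
    apply Pool.Agent.N814.DR.rigid_slash ht _ hf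
    rw [Matrix.det_fin_two_of]
    simpa using hd.ne_zero
  · unfold Vf
    apply Finset.sum_congr rfl
    intro w _
    rw [Pi.smul_apply, slash_tri ht hd.ne_zero hz, map_one, one_mul, one_mul, smul_eq_mul, ← pt_eq_pw]
    field_simp

lemma affine_mem (ht : 1 < ‖t‖) {d : F[X]} (hd : d ≠ 0) (b : F[X]) {z : C} (hz : z ∈ Omega F t) :
    (aeval t d)⁻¹ * z + (aeval t d)⁻¹ * aeval t b ∈ Omega F t := by
  have hD0 := aeval_ne_zero (F := F) (C := C) ht hd
  intro h
  apply hz
  have h1 : z = aeval t d * ((aeval t d)⁻¹ * z + (aeval t d)⁻¹ * aeval t b) - aeval t b := by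
    field_simp
    ring
  rw [h1]
  exact sub_mem (mul_mem (aeval_mem_Kinf t d) h) (aeval_mem_Kinf t b)

lemma Vf_per (ht : 1 < ‖t‖) (hp : Per F t f) {d : F[X]} (hd : d.Monic) (c : F[X]) {z : C}
    (hz : z ∈ Omega F t) : Vf t d f (z + aeval t c) = Vf t d f z := by
  have hD0 := aeval_ne_zero (F := F) (C := C) ht hd.ne_zero
  obtain ⟨σ, hσ⟩ := exists_shift hd c
  unfold Vf
  rw [← σ.sum_comp (fun w => f ((aeval t d)⁻¹ * z + (aeval t d)⁻¹ * pt t w))]
  apply Finset.sum_congr rfl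
  intro w _
  obtain ⟨k, hk⟩ := hσ w
  have e : (aeval t d)⁻¹ * (z + aeval t c) + (aeval t d)⁻¹ * pt t w =
      ((aeval t d)⁻¹ * z + (aeval t d)⁻¹ * pt t (σ w)) + aeval t k := by
    have h1 := congrArg (aeval t) hk
    rw [map_add, map_add, map_mul] at h1
    rw [pt_eq_pw, pt_eq_pw]
    field_simp
    linear_combination h1
  rw [e]
  apply hp
  rw [pt_eq_pw]
  exact affine_mem ht hd.ne_zero _ hz

lemma Vf_res (hs : s ^ 2 = t) (ht : 1 < ‖t‖) (hf : IsRigidAnalytic F t f)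
    (h0 : HasRes (Fintype.card F) f 0 s⁻¹ 0) {d : F[X]} (hd : d.Monic) :
    HasRes (Fintype.card F) (Vf t d f) 0 s⁻¹ 0 := by
  have hG := norm_aeval ht hd.ne_zero
  have hG0 := aeval_ne_zero (F := F) (C := C) ht hd.ne_zero
  obtain ⟨_, v0, v, h1, h2, h3⟩ := good_mul hf (PA.one (C := C))
    (regOK_A (F := F) hs ht hG) (N := d.natDegree + 1)
    (fun z hz => reg_A_sub hs ht hG (aeval_mem_Kinf t d) hz)
  simp only [mul_one] at h1 h2
  have hv0 : v0 = 0 := h1.unique h0
  have h4 : ∀ w : Fin d.natDegree → F, HasRes (Fintype.card F)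
      (fun z => f ((aeval t d)⁻¹ * z + (aeval t d)⁻¹ * pt t w)) 0 s⁻¹ ((aeval t d)⁻¹⁻¹ * v w) := by
    intro w
    have h6 : HasRes (Fintype.card F) f
        ((aeval t d)⁻¹ * 0 + (aeval t d)⁻¹ * pt t w) ((aeval t d)⁻¹ * s⁻¹) (v w) := by
      rw [mul_zero, zero_add]
      exact h2 w
    exact hasRes_affine (inv_ne_zero hG0) h6
  have h5 := HasRes.sum (T := Finset.univ) (fun w _ => h4 w)
  rw [← Finset.mul_sum, ← h3, hv0, mul_zero] at h5
  exact h5

/-- the part `a ≠ 1` of the Hecke operator -/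
lemma piece_ne (hs : s ^ 2 = t) (ht : 1 < ‖t‖) (hf : IsRigidAnalytic F t f) (hp : Per F t f)
    (h0 : HasRes (Fintype.card F) f 0 s⁻¹ 0) (hE : PA (expA F t))
    (hadd : ∀ z z' : C, expA F t (z + z') = expA F t z + expA F t z')
    (hsm : ∀ (c : F) (z : C), expA F t (algebraMap F C c * z) = algebraMap F C c * expA F t z)
    {a d : F[X]} (ha : a.Monic) (hd : d.Monic) (ha1 : a ≠ 1) :
    HasRes (Fintype.card F) (fun z => (∑ w : Fin d.natDegree → F,
        slash F t 2 1 !![a, pw w; 0, d] f z) * expA F t z ^ (Fintype.card F - 1)) 0 s⁻¹ 0 := by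
  have hG := norm_aeval ht ha.ne_zero
  have hG0 := aeval_ne_zero (F := F) (C := C) ht ha.ne_zero
  have hD0 := aeval_ne_zero (F := F) (C := C) ht hd.ne_zero
  set G := aeval t a with hGdef
  set V := Vf t d f with hV
  obtain ⟨m, hm⟩ : ∃ m, a.natDegree = m + 1 :=
    Nat.exists_eq_succ_of_ne_zero (fun h => ha1 (ha.natDegree_eq_zero.1 h))
  obtain ⟨_, v0, v, h1, h2, h3⟩ := good_mul (Vf_rigid ht hf hd) ((hE.scale G⁻¹).pow (Fintype.card F - 1))
    (regOK_B (F := F) hs ht hG) (N := a.natDegree + 1)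
    (fun z hz => reg_B_sub hs ht hG hz)
  rw [← hV] at h1 h2
  -- the inner residues
  have h4 : ∀ w : Fin a.natDegree → F, HasRes (Fintype.card F)
      (fun z => V z * (expA F t (G⁻¹ * z) + expA F t (G⁻¹ * pt t w)) ^ (Fintype.card F - 1)) 0 s⁻¹ (v w) := by
    intro w
    refine (h2 w).shift.congr two_le_card fun z hz => ?_
    rw [sub_zero] at hz
    have hzO := inner_mem_omega (F := F) hs ht hz
    beta_reduce
    rw [pt_eq_pw, hV, Vf_per ht hp hd _ hzO, mul_add, hadd]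
  have h5 := HasRes.sum (T := Finset.univ) (fun w _ => h4 w)
  obtain ⟨K, hK⟩ : ∃ K : C, ∀ x : C, ∑ w : Fin a.natDegree → F,
      (x + expA F t (G⁻¹ * pt t w)) ^ (Fintype.card F - 1) = K := by
    rw [hm]
    apply sum_space (F := F) (fun w : Fin (m + 1) → F => expA F t (G⁻¹ * pt t w))
    · intro v w
      rw [← hadd, ← mul_add]
      congr 2
      unfold pt
      rw [← Finset.sum_add_distrib]
      apply Finset.sum_congr rfl
      intro i _
      rw [Pi.add_apply, map_add]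
      ring
    · intro c w
      rw [← hsm]
      congr 1
      unfold pt
      rw [Finset.mul_sum, Finset.mul_sum, Finset.mul_sum]
      apply Finset.sum_congr rfl
      intro i _
      rw [Pi.smul_apply, smul_eq_mul, map_mul]
      ring
  have h6 : HasRes (Fintype.card F) (fun z => K * V z) 0 s⁻¹ (∑ w, v w) := by
    refine h5.congr two_le_card fun z _ => ?_
    rw [← Finset.mul_sum, hK, mul_comm]
  have h7 : ∑ w, v w = 0 := by
    have := h6.unique ((Vf_res hs ht hf h0 hd).const_mul K)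
    rwa [mul_zero] at this
  rw [h7] at h3
  rw [h3] at h1
  have h8 : HasRes (Fintype.card F) (fun z => V z * expA F t (G⁻¹ * z) ^ (Fintype.card F - 1))
      (G * 0 + 0) (G * s⁻¹) 0 := by
    rw [mul_zero, zero_add]
    exact h1
  have h9 := (hasRes_affine hG0 h8).const_mul (G * (aeval t d)⁻¹)
  rw [mul_zero, mul_zero] at h9
  refine h9.congr two_le_card fun z hz => ?_
  rw [sub_zero] at hz
  have hzO := inner_mem_omega (F := F) hs ht hz
  have e1 : ∑ w : Fin d.natDegree → F, slash F t 2 1 !![a, pw w; 0, d] f z =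
      G * (aeval t d)⁻¹ * V (G * z + 0) := by
    rw [hV, Vf, Finset.mul_sum]
    apply Finset.sum_congr rfl
    intro w _
    rw [slash_tri ht hd.ne_zero hzO, add_zero, pt_eq_pw]
  rw [e1]
  have e2 : G⁻¹ * (G * z + 0) = z := by rw [add_zero, inv_mul_cancel_left₀ hG0]
  rw [e2]
  ring

end

/-- K9, from K5 -/
theorem t_HB (h5 : S_EXPA) : S_HB := by
  intro Fq C _ _ _ _ _ _ _ t s ι hst n g hn hg f hf hp h0
  classical
  obtain ⟨hadd, hsm, hker, -, -, -, hPA, -, -⟩ := h5 Fq C t hst.ht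
  have ht := hst.ht
  have hs := hst.hs
  obtain ⟨v, hv1, hv2⟩ := piece_one hs ht hf hPA hadd hker hg
  refine ⟨v, ?_, hv2⟩
  have hpiece : ∀ x ∈ (Dset_finite n hg).toFinset, HasRes (Fintype.card Fq)
      (fun z => (∑ w : Fin x.2.natDegree → Fq, slash Fq t 2 1 !![x.1, pw w; 0, x.2] f z) *
        expA Fq t z ^ (Fintype.card Fq - 1)) 0 s⁻¹ (if x = (1, g) then v else 0) := by
    rintro ⟨a, d⟩ hx
    rw [Set.Finite.mem_toFinset] at hx
    obtain ⟨ha, hd, hgd, -⟩ := hx
    by_cases ha1 : a = 1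
    · have hdg : d = g := by rw [← hgd]; simp [ha1]
      subst ha1
      subst hdg
      rw [if_pos rfl]
      exact hv1
    · rw [if_neg (fun h => ha1 (congrArg Prod.fst h))]
      exact piece_ne hs ht hf hp h0 hPA hadd hsm ha hd ha1
  have hsum := HasRes.sum hpiece
  rw [Finset.sum_ite_eq' _ (1, g), if_pos] at hsum
  · refine hsum.congr two_le_card fun z hz => ?_
    rw [← Finset.sum_mul]
    congr 1
    unfold heckeM
    rw [heckeM_eq t n hg f, Finset.sum_apply]
    apply Finset.sum_congr rfl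
    intro x _
    rw [finsum_eq_sum_of_fintype, Finset.sum_apply]
  · rw [Set.Finite.mem_toFinset]
    exact ⟨Polynomial.monic_one, hg, one_mul g, isCoprime_one_left⟩

end Pool.Agent.J4H69.HP
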